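import Pool.Agent.Helper89.GP.GoalsC

/-!
# Packet GP-XYK (MP_480c30_co): the numerical consequence of the XYZ inequality
-/

namespace Pool.Agent.Helper51.GP

open Pool.Agent.Helper89.GP

theorem xyk : XykStmt := by
  intro p a d m ha hd hm hp hsum hpm
  by_contra hcon
  push Not at hcon
  obtain ⟨q, hq⟩ : ∃ q, q = 1 - p := ⟨_, rfl⟩
  rw [← hq] at hcon
  have hqs : a + d + m = q := by linarith
  have hqp : q ≤ p := by linarith
  have hmq : m ≤ q := by linarith
  have hq0 : 0 < q := by
    by_contra h
    push Not at h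
    have : m ≤ 0 := by linarith
    have h0 : m = 0 := le_antisymm this hm
    have : q = 0 := by linarith
    rw [h0, this] at hcon
    norm_num at hcon
  have h1 : m * q ≤ a * d := by
    have : m * q ≤ m * p := mul_le_mul_of_nonneg_left hqp hm
    linarith [mul_comm m p]
  have h2 : 4 * (a * d) ≤ (q - m) ^ 2 := by
    have : q - m = a + d := by linarith
    rw [this]
    nlinarith [sq_nonneg (a - d)]
  have h3 : 0 ≤ m ^ 2 - 6 * (m * q) + q ^ 2 := by nlinarith
  have h4 : 0 ≤ (m - 171573 / 1000000 * q) * (q - m) :=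
    mul_nonneg (by linarith) (by linarith)
  have h5 : 0 < q * (m - 171573 / 1000000 * q) := mul_pos hq0 (by linarith)
  nlinarith [mul_pos hq0 hq0]

end Pool.Agent.Helper51.GP
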